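import Mathlib

/-!
A polynomial over a domain `R` of characteristic zero which is not a constant times a square stays
so under every ring map to a field which does not kill a certain nonzero element of `R`.

PROOF. Over `K = Frac R` write `a = s² r` with `r` squarefree; `r` is not constant, as `a` is not a
constant times a square. As `K` has characteristic zero, `r` is separable: `u r + v r' = 1`. Clear
the denominators: there are `s₀, r₀, u₀, v₀ ∈ R[X]` and nonzero `d₁, d₂ ∈ R` with
`C d₁ a = s₀² r₀`, `u₀ r₀ + v₀ r₀' = C d₂`, `deg r₀ ≥ 1`. Take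
`D = d₁ d₂ (leading coefficient of r₀) (leading coefficient of s₀)`. If `φ D ≠ 0` then `φ r₀` is
squarefree and not constant and `φ s₀ ≠ 0`. If `φ a = C u s²`, then `(φ s₀)² (φ r₀) = C c s²`
with a constant `c ≠ 0`, so `φ s₀` divides `s`, and a square times a unit is equal to `φ r₀`,
which is a contradiction.
-/

set_option autoImplicit false

namespace Pool.Agent.Lib.MP_1a0ddd_nt.Gn

open Polynomial

/-- Squarefree part over a field. -/
private theorem exists_sq_mul {K : Type} [Field K] (n : ℕ) :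
    ∀ a : K[X], a ≠ 0 → a.natDegree ≤ n → ∃ s r : K[X], a = s ^ 2 * r ∧ Squarefree r := by
  induction n with
  | zero =>
    intro a ha hd
    refine ⟨1, a, by ring, ?_⟩
    have hu : IsUnit a := by
      rw [Polynomial.isUnit_iff_degree_eq_zero, Polynomial.degree_eq_natDegree ha]
      have : a.natDegree = 0 := by omega
      rw [this]; rfl
    exact hu.squarefree
  | succ n ih =>
    intro a ha hd
    by_cases hs : Squarefree a
    · exact ⟨1, a, by ring, hs⟩
    · unfold Squarefree at hs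
      push Not at hs
      obtain ⟨x, ⟨b, hb⟩, hx⟩ := hs
      have hx0 : x ≠ 0 := by
        rintro rfl
        exact ha (by rw [hb]; ring)
      have hb0 : b ≠ 0 := by
        rintro rfl
        exact ha (by rw [hb]; ring)
      have hxd : 1 ≤ x.natDegree := by
        by_contra hlt
        apply hx
        rw [Polynomial.isUnit_iff_degree_eq_zero, Polynomial.degree_eq_natDegree hx0]
        have : x.natDegree = 0 := by omega
        rw [this]; rfl
      have hdeg : a.natDegree = x.natDegree + x.natDegree + b.natDegree := by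
        rw [hb, Polynomial.natDegree_mul (mul_ne_zero hx0 hx0) hb0,
          Polynomial.natDegree_mul hx0 hx0]
      obtain ⟨s, r, hsr, hr⟩ := ih b hb0 (by omega)
      exact ⟨x * s, r, by rw [hb, hsr]; ring, hr⟩

/-- A squarefree nonconstant polynomial times a square is not a constant times a square. -/
private theorem not_sq {E : Type} [Field E] {s₀ r s : E[X]} {c : E} (hs₀ : s₀ ≠ 0)
    (hr : Squarefree r) (hru : ¬ IsUnit r) (h : s₀ ^ 2 * r = C c * s ^ 2) : False := by
  have hr0 : r ≠ 0 := by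
    rintro rfl
    exact not_squarefree_zero hr
  have hc : c ≠ 0 := by
    rintro rfl
    have : s₀ ^ 2 * r = 0 := by rw [h]; simp
    exact (mul_ne_zero (pow_ne_zero 2 hs₀) hr0) this
  have hcu : IsUnit (C c : E[X]) := Polynomial.isUnit_C.2 (isUnit_iff_ne_zero.2 hc)
  have h1 : s₀ ^ 2 ∣ s ^ 2 := by
    have h2 : s₀ ^ 2 ∣ C c * s ^ 2 := ⟨r, h.symm⟩
    exact (hcu.dvd_mul_left).1 h2
  obtain ⟨t, rfl⟩ := (UniqueFactorizationMonoid.pow_dvd_pow_iff_dvd two_ne_zero).1 h1
  have h3 : r = C c * t ^ 2 := by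
    have : s₀ ^ 2 * r = s₀ ^ 2 * (C c * t ^ 2) := by rw [h]; ring
    exact mul_left_cancel₀ (pow_ne_zero 2 hs₀) this
  have h4 : t * t ∣ r := ⟨C c, by rw [h3]; ring⟩
  have h5 : IsUnit t := hr t h4
  exact hru (by rw [h3]; exact hcu.mul (h5.pow 2))

/-- Denominators of a polynomial. -/
private theorem clear_den (R : Type) [CommRing R] [IsDomain R] (p : (FractionRing R)[X]) :
    ∃ (b : R) (q : R[X]), b ≠ 0 ∧
      q.map (algebraMap R (FractionRing R)) = C (algebraMap R (FractionRing R) b) * p := by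
  obtain ⟨b, hb₁, hb₂⟩ := IsLocalization.integerNormalization_spec (nonZeroDivisors R) p
  refine ⟨b, IsLocalization.integerNormalization (nonZeroDivisors R) p,
    nonZeroDivisors.ne_zero hb₁, ?_⟩
  rw [hb₂, Polynomial.C_mul', algebraMap_smul]

theorem cert (R : Type) [CommRing R] [IsDomain R] [CharZero R] (a : R[X])
    (ha : ∀ (u : FractionRing R) (s : (FractionRing R)[X]),
      a.map (algebraMap R (FractionRing R)) ≠ C u * s ^ 2) :
    ∃ D : R, D ≠ 0 ∧ ∀ (E : Type) [Field E] (φ : R →+* E), φ D ≠ 0 →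
      ∀ (u : E) (s : E[X]), a.map φ ≠ C u * s ^ 2 := by
  set K := FractionRing R with hK
  set ι : R →+* K := algebraMap R K with hι
  have hinj : Function.Injective ι := IsFractionRing.injective R K
  have : CharZero K := charZero_of_injective_algebraMap hinj
  have ha0 : a.map ι ≠ 0 := by
    intro h
    exact ha 0 0 (by rw [h]; simp)
  obtain ⟨s, r, hsr, hr⟩ := exists_sq_mul (a.map ι).natDegree (a.map ι) ha0 le_rfl
  have hr0 : r ≠ 0 := by
    rintro rfl
    exact not_squarefree_zero hr
  have hs0 : s ≠ 0 := by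
    rintro rfl
    exact ha0 (by rw [hsr]; ring)
  have hrd : r.natDegree ≠ 0 := by
    intro h
    rw [Polynomial.eq_C_of_natDegree_eq_zero h] at hsr
    exact ha _ s (by rw [hsr]; ring)
  obtain ⟨b₁, s₀, hb₁, hs₀⟩ := clear_den R s
  obtain ⟨b₂, r₀, hb₂, hr₀⟩ := clear_den R r
  have hιb₁ : ι b₁ ≠ 0 := by rwa [Ne, map_eq_zero_iff ι hinj]
  have hιb₂ : ι b₂ ≠ 0 := by rwa [Ne, map_eq_zero_iff ι hinj]
  -- the product formula over `R`
  have hprod : C (b₁ ^ 2 * b₂) * a = s₀ ^ 2 * r₀ := by
    apply Polynomial.map_injective ι hinj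
    rw [Polynomial.map_mul, Polynomial.map_mul, Polynomial.map_pow, Polynomial.map_C, hs₀, hr₀,
      hsr, map_mul, map_pow, map_mul, map_pow]
    ring
  -- separability
  have hsep : (r₀.map ι).Separable := by
    rw [hr₀]
    exact Separable.unit_mul (Polynomial.isUnit_C.2 (isUnit_iff_ne_zero.2 hιb₂))
      (PerfectField.separable_iff_squarefree.2 hr)
  obtain ⟨u, v, huv⟩ := (separable_def' _).1 hsep
  obtain ⟨b₃, u₀, hb₃, hu₀⟩ := clear_den R u
  obtain ⟨b₄, v₀, hb₄, hv₀⟩ := clear_den R v
  have hbez : C b₄ * u₀ * r₀ + C b₃ * v₀ * derivative r₀ = C (b₃ * b₄) := by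
    apply Polynomial.map_injective ι hinj
    have h1 : (derivative r₀).map ι = derivative (r₀.map ι) := (Polynomial.derivative_map _ _).symm
    rw [Polynomial.map_add, Polynomial.map_mul, Polynomial.map_mul, Polynomial.map_mul,
      Polynomial.map_mul, Polynomial.map_C, Polynomial.map_C, Polynomial.map_C, hu₀, hv₀, h1,
      map_mul, map_mul]
    linear_combination (C (ι b₃) * C (ι b₄)) * huv
  have hs₀0 : s₀ ≠ 0 := by
    rintro rfl
    rw [Polynomial.map_zero] at hs₀
    exact mul_ne_zero (C_ne_zero.2 hιb₁) hs0 hs₀.symm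
  have hr₀0 : r₀ ≠ 0 := by
    rintro rfl
    rw [Polynomial.map_zero] at hr₀
    exact mul_ne_zero (C_ne_zero.2 hιb₂) hr0 hr₀.symm
  have hr₀d : r₀.natDegree ≠ 0 := by
    rw [← Polynomial.natDegree_map_eq_of_injective hinj r₀, hr₀,
      Polynomial.natDegree_C_mul hιb₂]
    exact hrd
  refine ⟨b₁ ^ 2 * b₂ * (b₃ * b₄) * r₀.leadingCoeff * s₀.leadingCoeff, ?_, ?_⟩
  · exact mul_ne_zero (mul_ne_zero (mul_ne_zero (mul_ne_zero (pow_ne_zero 2 hb₁) hb₂)
      (mul_ne_zero hb₃ hb₄)) (leadingCoeff_ne_zero.2 hr₀0)) (leadingCoeff_ne_zero.2 hs₀0)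
  · intro E _ φ hD c w hw
    rw [map_mul, map_mul, map_mul] at hD
    have hφs : φ s₀.leadingCoeff ≠ 0 := right_ne_zero_of_mul hD
    have hD' := left_ne_zero_of_mul hD
    have hφr : φ r₀.leadingCoeff ≠ 0 := right_ne_zero_of_mul hD'
    have hD'' := left_ne_zero_of_mul hD'
    have hφb : φ (b₃ * b₄) ≠ 0 := right_ne_zero_of_mul hD''
    have hφd : φ (b₁ ^ 2 * b₂) ≠ 0 := left_ne_zero_of_mul hD''
    have hs₁ : s₀.map φ ≠ 0 := by
      intro h
      apply hφs
      have := congrArg (fun q => q.coeff s₀.natDegree) h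
      simpa [Polynomial.coeff_map] using this
    have hsep' : (r₀.map φ).Separable := by
      rw [separable_def']
      have h1 := congrArg (Polynomial.map φ) hbez
      rw [Polynomial.map_add, Polynomial.map_mul, Polynomial.map_mul, Polynomial.map_mul,
        Polynomial.map_mul, Polynomial.map_C, Polynomial.map_C, Polynomial.map_C,
        ← Polynomial.derivative_map] at h1
      refine ⟨C (φ (b₃ * b₄))⁻¹ * (C (φ b₄) * u₀.map φ),
        C (φ (b₃ * b₄))⁻¹ * (C (φ b₃) * v₀.map φ), ?_⟩
      have h2 : (C (φ (b₃ * b₄))⁻¹ : E[X]) * C (φ (b₃ * b₄)) = 1 := by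
        rw [← C_mul, inv_mul_cancel₀ hφb, C_1]
      linear_combination (C (φ (b₃ * b₄))⁻¹ : E[X]) * h1 + h2
    have hru : ¬ IsUnit (r₀.map φ) := by
      intro h
      have h1 := Polynomial.natDegree_eq_zero_of_isUnit h
      rw [Polynomial.natDegree_map_of_leadingCoeff_ne_zero φ hφr] at h1
      exact hr₀d h1
    have h3 : (s₀.map φ) ^ 2 * r₀.map φ = C (φ (b₁ ^ 2 * b₂) * c) * w ^ 2 := by
      have h4 := congrArg (Polynomial.map φ) hprod
      rw [Polynomial.map_mul, Polynomial.map_mul, Polynomial.map_pow, Polynomial.map_C, hw] at h4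
      rw [← h4, C_mul]
      ring
    exact not_sq hs₁ hsep'.squarefree hru h3

end Pool.Agent.Lib.MP_1a0ddd_nt.Gn
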