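import Pool.Agent.Lib.MP_1a0ddd_nt.Gn.Ded

/-! The affine conic `y² = q(t)`, `deg q ≤ 2`: the square of every prime ideal is principal. -/

set_option autoImplicit false

namespace Pool.Agent.Lib.MP_1a0ddd_nt.Gn

open Polynomial

variable {k : Type} [Field k]

/-- composition: `(p, y - b) (p', y - b) = (y - b)` if `b² - q = p p'` -/
private theorem comp (h2 : (2 : k) ≠ 0) {q : k[X]} (hsf : Squarefree q) {W : Type} [CommRing W]
    [Algebra k[X] W] {y : W} (H : QHyp q W y) (p p' b : k[X]) (h : b ^ 2 - q = p * p') :
    Ideal.span {algebraMap k[X] W p, y - algebraMap k[X] W b} *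
      Ideal.span {algebraMap k[X] W p', y - algebraMap k[X] W b} =
      Ideal.span {y - algebraMap k[X] W b} := by
  classical
  have hpp : algebraMap k[X] W p * algebraMap k[X] W p' =
      -((y - algebraMap k[X] W b) * (y + algebraMap k[X] W b)) := by
    rw [← map_mul, ← h, map_sub, map_pow, ← H.sq]
    ring
  rw [Ideal.span_pair_mul_span_pair]
  apply le_antisymm
  · rw [Ideal.span_le]
    rintro z hz
    simp only [Set.mem_insert_iff, Set.mem_singleton_iff] at hz
    rw [SetLike.mem_coe, Ideal.mem_span_singleton]
    rcases hz with rfl | rfl | rfl | rfl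
    · rw [hpp]
      exact (Dvd.intro _ rfl).neg_right
    · exact dvd_mul_left _ _
    · exact dvd_mul_right _ _
    · exact dvd_mul_right _ _
  · rw [Ideal.span_singleton_le_iff_mem]
    have hu : IsUnit (EuclideanDomain.gcd p (EuclideanDomain.gcd p' b)) := by
      set g := EuclideanDomain.gcd p (EuclideanDomain.gcd p' b) with hg
      have h1 : g ∣ p := EuclideanDomain.gcd_dvd_left _ _
      have h2 : g ∣ p' := (EuclideanDomain.gcd_dvd_right _ _).trans
        (EuclideanDomain.gcd_dvd_left _ _)
      have h3 : g ∣ b := (EuclideanDomain.gcd_dvd_right _ _).trans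
        (EuclideanDomain.gcd_dvd_right _ _)
      refine hsf g ?_
      have h4 : g * g ∣ p * p' := mul_dvd_mul h1 h2
      have h5 : g * g ∣ b ^ 2 := by
        rw [sq]
        exact mul_dvd_mul h3 h3
      have h6 : q = b ^ 2 - p * p' := by rw [← h]; ring
      rw [h6]
      exact dvd_sub h5 h4
    obtain ⟨g', hg'⟩ := hu.exists_right_inv
    have e1 := EuclideanDomain.gcd_eq_gcd_ab p (EuclideanDomain.gcd p' b)
    have e2 := EuclideanDomain.gcd_eq_gcd_ab p' b
    obtain ⟨α, β, γ, hαβγ⟩ : ∃ α β γ : k[X], α * p + β * p' + γ * (2 * b) = 1 := by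
      have h2' : (C (2 : k)⁻¹ : k[X]) * 2 = 1 := by
        have : (2 : k[X]) = C 2 := (map_ofNat C 2).symm
        rw [this, ← C_mul, inv_mul_cancel₀ h2, C_1]
      refine ⟨EuclideanDomain.gcdA p (EuclideanDomain.gcd p' b) * g',
        EuclideanDomain.gcdB p (EuclideanDomain.gcd p' b) * EuclideanDomain.gcdA p' b * g',
        C (2 : k)⁻¹ * EuclideanDomain.gcdB p (EuclideanDomain.gcd p' b) *
          EuclideanDomain.gcdB p' b * g', ?_⟩
      have e3 : p * EuclideanDomain.gcdA p (EuclideanDomain.gcd p' b) +
          (p' * EuclideanDomain.gcdA p' b + b * EuclideanDomain.gcdB p' b) *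
            EuclideanDomain.gcdB p (EuclideanDomain.gcd p' b) =
          EuclideanDomain.gcd p (EuclideanDomain.gcd p' b) := by
        rw [← e2]
        exact e1.symm
      linear_combination g' * e3 + hg' + (b * EuclideanDomain.gcdB p' b *
        EuclideanDomain.gcdB p (EuclideanDomain.gcd p' b) * g') * h2'
    set J := Ideal.span {algebraMap k[X] W p * algebraMap k[X] W p',
      algebraMap k[X] W p * (y - algebraMap k[X] W b),
      (y - algebraMap k[X] W b) * algebraMap k[X] W p',
      (y - algebraMap k[X] W b) * (y - algebraMap k[X] W b)} with hJ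
    have m1 : algebraMap k[X] W p * algebraMap k[X] W p' ∈ J := Ideal.subset_span (by simp)
    have m2 : algebraMap k[X] W p * (y - algebraMap k[X] W b) ∈ J := Ideal.subset_span (by simp)
    have m3 : (y - algebraMap k[X] W b) * algebraMap k[X] W p' ∈ J := Ideal.subset_span (by simp)
    have m4 : (y - algebraMap k[X] W b) * (y - algebraMap k[X] W b) ∈ J :=
      Ideal.subset_span (by simp)
    have m5 : (y - algebraMap k[X] W b) * (2 * algebraMap k[X] W b) ∈ J := by
      have e : (y - algebraMap k[X] W b) * (2 * algebraMap k[X] W b) =
          -(algebraMap k[X] W p * algebraMap k[X] W p') -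
            (y - algebraMap k[X] W b) * (y - algebraMap k[X] W b) := by
        rw [hpp]
        ring
      rw [e]
      exact J.sub_mem (J.neg_mem m1) m4
    have e7 : y - algebraMap k[X] W b =
        algebraMap k[X] W α * (algebraMap k[X] W p * (y - algebraMap k[X] W b)) +
        algebraMap k[X] W β * ((y - algebraMap k[X] W b) * algebraMap k[X] W p') +
        algebraMap k[X] W γ * ((y - algebraMap k[X] W b) * (2 * algebraMap k[X] W b)) := by
      have e8 := congrArg (algebraMap k[X] W) hαβγ
      rw [map_add, map_add, map_mul, map_mul, map_mul, map_mul, map_one, map_ofNat] at e8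
      linear_combination (-(y - algebraMap k[X] W b)) * e8
    rw [e7]
    exact J.add_mem (J.add_mem (J.mul_mem_left _ m2) (J.mul_mem_left _ m3)) (J.mul_mem_left _ m5)

private theorem span_congr {W : Type} [CommRing W] [Algebra k[X] W] (y : W) (p b b' : k[X])
    (h : p ∣ b - b') : Ideal.span {algebraMap k[X] W p, y - algebraMap k[X] W b} =
      Ideal.span {algebraMap k[X] W p, y - algebraMap k[X] W b'} := by
  have key : ∀ b b' : k[X], p ∣ b - b' →
      Ideal.span {algebraMap k[X] W p, y - algebraMap k[X] W b} ≤
      Ideal.span {algebraMap k[X] W p, y - algebraMap k[X] W b'} := by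
    rintro b b' ⟨c, hc⟩
    rw [Ideal.span_le]
    rintro z hz
    simp only [Set.mem_insert_iff, Set.mem_singleton_iff] at hz
    rcases hz with rfl | rfl
    · exact Ideal.subset_span (by simp)
    · have e : y - algebraMap k[X] W b = (y - algebraMap k[X] W b') -
          algebraMap k[X] W c * algebraMap k[X] W p := by
        have h1 : b = b' + c * p := by linear_combination hc
        rw [h1, map_add, map_mul]
        ring
      rw [e]
      exact Ideal.sub_mem _ (Ideal.subset_span (by simp))
        (Ideal.mul_mem_left _ _ (Ideal.subset_span (by simp)))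
  refine le_antisymm (key b b' h) (key b' b ?_)
  have h1 : b' - b = -(b - b') := by ring
  rw [h1]
  exact h.neg_right

/-- a principal ideal divided by a principal ideal is principal -/
private theorem princ_of_mul {W : Type} [CommRing W] [IsDomain W] (I : Ideal W) (w z : W)
    (hw : w ≠ 0) (h : I * Ideal.span {w} = Ideal.span {z}) : ∃ a, I = Ideal.span {a} := by
  have h1 : z ∈ I * Ideal.span {w} := by
    rw [h]
    exact Ideal.mem_span_singleton_self z
  rw [Ideal.mem_mul_span_singleton] at h1
  obtain ⟨a, -, ha⟩ := h1
  refine ⟨a, ?_⟩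
  rw [← ha, ← Ideal.span_singleton_mul_span_singleton] at h
  exact (Ideal.span_singleton_mul_left_injective hw).eq_iff.1 (by
    simpa [mul_comm] using h)

private theorem norm_deg {q : k[X]} (hd : q.natDegree ≤ 2) (m : ℕ) (hm : 2 ≤ m) (b : k[X])
    (hb : b.natDegree < m) : (b ^ 2 - q).natDegree ≤ 2 * (m - 1) := by
  refine (natDegree_sub_le _ _).trans (max_le ?_ ?_)
  · rw [natDegree_pow]
    omega
  · omega

/-- the square of `(p, y - b)` is principal if `p ∣ b² - q` -/
private theorem sq_form (h2 : (2 : k) ≠ 0) {q : k[X]} (hsf : Squarefree q) (hd : q.natDegree ≤ 2)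
    (hq : Aniso q) {W : Type} [CommRing W] [IsDomain W] [Algebra k[X] W] {y : W}
    (H : QHyp q W y) (m : ℕ) : ∀ p b : k[X], p.natDegree = m → p ≠ 0 → p ∣ b ^ 2 - q →
      ∃ a : W, Ideal.span {algebraMap k[X] W p, y - algebraMap k[X] W b} ^ 2 = Ideal.span {a} := by
  have hinj : Function.Injective (algebraMap k[X] W) := by
    rw [injective_iff_map_eq_zero]
    intro u hu
    exact (H.uniq u 0 (by rw [hu, map_zero, zero_mul, add_zero])).1
  have hyb : ∀ b : k[X], y - algebraMap k[X] W b ≠ 0 := by
    intro b h0
    have := (H.uniq (-b) 1 (by rw [map_neg, map_one, one_mul, ← h0]; ring)).2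
    exact one_ne_zero this
  have hbq : ∀ b : k[X], b ^ 2 - q ≠ 0 := by
    intro b h0
    have := (hq b 1 (by rw [one_pow, one_mul]; exact sub_eq_zero.1 h0)).2
    exact one_ne_zero this
  induction m using Nat.strong_induction_on with
  | _ m ih =>
    intro p b hpm hp hdvd
    rcases Nat.lt_or_ge m 2 with hm | hm
    · interval_cases m
      · -- degree zero
        have hu : IsUnit p := by
          rw [eq_C_of_natDegree_eq_zero hpm, isUnit_C]
          refine IsUnit.mk0 _ fun h0 => hp ?_
          rw [eq_C_of_natDegree_eq_zero hpm, h0, C_0]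
        refine ⟨1, ?_⟩
        have h1 : Ideal.span {algebraMap k[X] W p, y - algebraMap k[X] W b} = ⊤ :=
          Ideal.eq_top_of_isUnit_mem _ (Ideal.subset_span (by simp)) (hu.map (algebraMap k[X] W))
        rw [h1, Ideal.span_singleton_one, ← Ideal.one_eq_top, one_pow]
      · -- degree one
        obtain ⟨t₀, ht₀⟩ : ∃ t₀, p.eval t₀ = 0 := by
          obtain ⟨x, hx⟩ := exists_root_of_degree_eq_one
            ((degree_eq_iff_natDegree_eq hp).2 (by exact_mod_cast hpm))
          exact ⟨x, hx⟩
        obtain ⟨c, hc⟩ := dvd_iff_isRoot.2 ht₀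
        have hcu : IsUnit c := by
          have h1 : c ≠ 0 := by
            rintro rfl
            exact hp (by rw [hc, mul_zero])
          have h3 : p.natDegree = 1 + c.natDegree := by
            rw [hc, natDegree_mul (X_sub_C_ne_zero t₀) h1, natDegree_X_sub_C]
          have h4 : c.natDegree = 0 := by omega
          rw [eq_C_of_natDegree_eq_zero h4, isUnit_C]
          refine IsUnit.mk0 _ fun h0 => h1 ?_
          rw [eq_C_of_natDegree_eq_zero h4, h0, C_0]
        have hroot : b.eval t₀ ^ 2 = q.eval t₀ := by
          obtain ⟨e, he⟩ := hdvd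
          have := congrArg (eval t₀) he
          rw [eval_sub, eval_pow, eval_mul, ht₀, zero_mul, sub_eq_zero] at this
          exact this
        have hspan : ∀ b' : k[X], b'.eval t₀ = b.eval t₀ →
            Ideal.span {algebraMap k[X] W p, y - algebraMap k[X] W b} =
            Ideal.span {algebraMap k[X] W (X - C t₀), y - algebraMap k[X] W b'} := by
          intro b' hb'
          have h3 : p ∣ b - b' := by
            have h4 : (X - C t₀) ∣ b - b' := by
              rw [dvd_iff_isRoot, IsRoot, eval_sub, hb', sub_self]
            rw [hc]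
            exact (hcu.mul_right_dvd).2 h4
          rw [span_congr y p b b' h3]
          have h5 : algebraMap k[X] W p = algebraMap k[X] W (X - C t₀) * algebraMap k[X] W c := by
            rw [← map_mul, ← hc]
          have hcu' : IsUnit (algebraMap k[X] W c) := hcu.map _
          rw [Ideal.span_insert, Ideal.span_insert, h5,
            Ideal.span_singleton_mul_right_unit hcu']
        by_cases hb0 : b.eval t₀ = 0
        · -- a branch point
          refine ⟨algebraMap k[X] W (X - C t₀), ?_⟩
          rw [hspan 0 (by rw [eval_zero, hb0]), map_zero, sub_zero]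
          have hq0 : q.eval t₀ = 0 := by rw [← hroot, hb0]; ring
          obtain ⟨q', hq'⟩ := dvd_iff_isRoot.2 (show IsRoot q t₀ from hq0)
          have hq't : q'.eval t₀ ≠ 0 := by
            intro h0
            obtain ⟨q'', hq''⟩ := dvd_iff_isRoot.2 (show IsRoot q' t₀ from h0)
            have := hsf (X - C t₀) ⟨q'', by rw [hq', hq'']; ring⟩
            exact not_isUnit_X_sub_C t₀ this
          obtain ⟨α, β, hαβ⟩ : IsCoprime (X - C t₀) q' := by
            rw [(irreducible_X_sub_C t₀).coprime_iff_not_dvd, dvd_iff_isRoot]
            exact hq't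
          rw [sq, Ideal.span_pair_mul_span_pair]
          apply le_antisymm
          · rw [Ideal.span_le]
            rintro z hz
            simp only [Set.mem_insert_iff, Set.mem_singleton_iff] at hz
            rw [SetLike.mem_coe, Ideal.mem_span_singleton]
            rcases hz with rfl | rfl | rfl | rfl
            · exact dvd_mul_right _ _
            · exact dvd_mul_right _ _
            · exact dvd_mul_left _ _
            · rw [← sq, H.sq, hq', map_mul]
              exact dvd_mul_right _ _
          · rw [Ideal.span_singleton_le_iff_mem]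
            have e : algebraMap k[X] W (X - C t₀) = algebraMap k[X] W α *
                (algebraMap k[X] W (X - C t₀) * algebraMap k[X] W (X - C t₀)) +
                algebraMap k[X] W β * (y * y) := by
              rw [← sq y, H.sq, hq', ← map_mul, ← map_mul, ← map_mul, ← map_add]
              congr 1
              linear_combination (-(X - C t₀)) * hαβ
            set J := Ideal.span {algebraMap k[X] W (X - C t₀) * algebraMap k[X] W (X - C t₀),
              algebraMap k[X] W (X - C t₀) * y, y * algebraMap k[X] W (X - C t₀), y * y} with hJ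
            have m1 : algebraMap k[X] W (X - C t₀) * algebraMap k[X] W (X - C t₀) ∈ J :=
              Ideal.subset_span (Or.inl rfl)
            have m4 : y * y ∈ J := Ideal.subset_span (Or.inr (Or.inr (Or.inr rfl)))
            have m5 := J.add_mem (J.mul_mem_left (algebraMap k[X] W α) m1)
              (J.mul_mem_left (algebraMap k[X] W β) m4)
            rwa [← e] at m5
        · -- tangent line
          set lam : k := (derivative q).eval t₀ / (2 * b.eval t₀) with hlam
          set b' : k[X] := C (b.eval t₀) + C lam * (X - C t₀) with hb'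
          have hb't : b'.eval t₀ = b.eval t₀ := by simp [hb']
          have h3 : (X - C t₀) ^ 2 ∣ b' ^ 2 - q := by
            have h4 : (b' ^ 2 - q).eval t₀ = 0 := by
              rw [eval_sub, eval_pow, hb't, hroot, sub_self]
            have h5 : (derivative (b' ^ 2 - q)).eval t₀ = 0 := by
              have h6 : derivative b' = C lam := by simp [hb']
              rw [derivative_sub, derivative_sq, h6, eval_sub, eval_mul, eval_mul, eval_C,
                eval_C, hb't, hlam]
              field_simp
              ring
            obtain ⟨w, hw⟩ := dvd_iff_isRoot.2 (show IsRoot (b' ^ 2 - q) t₀ from h4)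
            have h7 : w.eval t₀ = 0 := by
              rw [hw, derivative_mul, eval_add, eval_mul, eval_mul, eval_sub, eval_X, eval_C,
                sub_self, zero_mul, add_zero] at h5
              simpa using h5
            obtain ⟨w', hw'⟩ := dvd_iff_isRoot.2 (show IsRoot w t₀ from h7)
            exact ⟨w', by rw [hw, hw']; ring⟩
          obtain ⟨w, hw⟩ := h3
          have hw0 : w ≠ 0 := by
            rintro rfl
            exact hbq b' (by rw [hw, mul_zero])
          have hwd : w.natDegree = 0 := by
            have h4 : (b' ^ 2 - q).natDegree = 2 + w.natDegree := by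
              rw [hw, natDegree_mul (pow_ne_zero 2 (X_sub_C_ne_zero t₀)) hw0, natDegree_pow,
                natDegree_X_sub_C]
            have h5 : (b' ^ 2 - q).natDegree ≤ 2 := by
              refine (natDegree_sub_le _ _).trans (max_le ?_ hd)
              rw [natDegree_pow]
              have : b'.natDegree ≤ 1 := by
                rw [hb']
                compute_degree
              omega
            omega
          have hwu : IsUnit (algebraMap k[X] W w) := by
            refine IsUnit.map _ ?_
            rw [eq_C_of_natDegree_eq_zero hwd, isUnit_C]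
            refine IsUnit.mk0 _ fun h0 => hw0 ?_
            rw [eq_C_of_natDegree_eq_zero hwd, h0, C_0]
          refine ⟨y - algebraMap k[X] W b', ?_⟩
          rw [hspan b' hb't, sq]
          have h8 := comp h2 hsf H (X - C t₀) ((X - C t₀) * w) b' (by rw [hw]; ring)
          have h9 : Ideal.span {algebraMap k[X] W ((X - C t₀) * w), y - algebraMap k[X] W b'} =
              Ideal.span {algebraMap k[X] W (X - C t₀), y - algebraMap k[X] W b'} := by
            rw [Ideal.span_insert, Ideal.span_insert, map_mul,
              Ideal.span_singleton_mul_right_unit hwu]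
          rwa [h9] at h8
    · -- reduction
      set b' := b % p with hb'
      have hbb : p ∣ b - b' := by
        refine ⟨b / p, ?_⟩
        have := EuclideanDomain.div_add_mod b p
        rw [hb']
        linear_combination -this
      have hb'd : b'.natDegree < m := by
        rw [← hpm]
        exact natDegree_mod_lt b (by omega)
      have hdvd' : p ∣ b' ^ 2 - q := by
        have : b' ^ 2 - q = (b ^ 2 - q) - (b - b') * (b + b') := by ring
        rw [this]
        exact dvd_sub hdvd (hbb.mul_right _)
      obtain ⟨p', hp'⟩ := hdvd'
      have hp'0 : p' ≠ 0 := by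
        rintro rfl
        exact hbq b' (by rw [hp', mul_zero])
      have hdeg : p.natDegree + p'.natDegree ≤ 2 * (m - 1) := by
        rw [← natDegree_mul hp hp'0, ← hp']
        exact norm_deg hd m hm b' hb'd
      obtain ⟨a, ha⟩ := ih p'.natDegree (by omega) p' b' rfl hp'0 ⟨p, by rw [hp']; ring⟩
      have h3 := comp h2 hsf H p p' b' hp'
      rw [span_congr y p b b' hbb]
      have h4 : Ideal.span {algebraMap k[X] W p, y - algebraMap k[X] W b'} ^ 2 *
          Ideal.span {a} = Ideal.span {(y - algebraMap k[X] W b') ^ 2} := by
        rw [← ha, ← mul_pow, h3, Ideal.span_singleton_pow]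
      refine princ_of_mul _ a _ ?_ h4
      rintro rfl
      rw [Ideal.span_singleton_eq_bot.2 rfl, Ideal.mul_bot, eq_comm,
        Ideal.span_singleton_eq_bot] at h4
      exact hyb b' (pow_eq_zero_iff two_ne_zero |>.1 h4)

/-- the square of every maximal ideal of the affine conic is principal -/
theorem conic_sq (h2 : (2 : k) ≠ 0) {q : k[X]} (hsf : Squarefree q) (hd : q.natDegree ≤ 2)
    (hq : Aniso q) {W : Type} [CommRing W] [IsDomain W] [Algebra k[X] W] {y : W}
    (H : QHyp q W y) (P : Ideal W) (hP : P.IsPrime) (hP0 : P ≠ ⊥) :
    ∃ a : W, P ^ 2 = Ideal.span {a} := by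
  have hinj : Function.Injective (algebraMap k[X] W) := by
    rw [injective_iff_map_eq_zero]
    intro u hu
    exact (H.uniq u 0 (by rw [hu, map_zero, zero_mul, add_zero])).1
  obtain ⟨z, hzP, hz0⟩ := Submodule.exists_mem_ne_zero_of_ne_bot hP0
  obtain ⟨n, hn, hdvd⟩ := q_exists_norm hq H z hz0
  have hnP : algebraMap k[X] W n ∈ P := P.mem_of_dvd hdvd hzP
  have hc : (P.comap (algebraMap k[X] W)).IsPrime := Ideal.comap_isPrime _ P
  have hc0 : P.comap (algebraMap k[X] W) ≠ ⊥ := by
    intro h0
    have : n ∈ P.comap (algebraMap k[X] W) := hnP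
    rw [h0] at this
    exact hn this
  obtain ⟨p, hpmem, hp⟩ := hc.exists_mem_prime_of_ne_bot hc0
  have hmax : (Ideal.span {p}).IsMaximal :=
    PrincipalIdealRing.isMaximal_of_irreducible hp.irreducible
  have hcomap : ∀ u : k[X], algebraMap k[X] W u ∈ P → p ∣ u := by
    intro u hu
    have h3 : Ideal.span {p} = P.comap (algebraMap k[X] W) := by
      refine hmax.eq_of_le hc.ne_top ?_
      rw [Ideal.span_singleton_le_iff_mem]
      exact hpmem
    have h4 : u ∈ P.comap (algebraMap k[X] W) := hu
    rw [← h3, Ideal.mem_span_singleton] at h4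
    exact h4
  have hpP : algebraMap k[X] W p ∈ P := hpmem
  by_cases hb : ∃ b : k[X], y - algebraMap k[X] W b ∈ P
  · obtain ⟨b, hb⟩ := hb
    have h3 : P = Ideal.span {algebraMap k[X] W p, y - algebraMap k[X] W b} := by
      apply le_antisymm
      · intro w hw
        obtain ⟨u, v, rfl⟩ := H.rep w
        have h4 : algebraMap k[X] W (u + v * b) ∈ P := by
          have e : algebraMap k[X] W (u + v * b) = (algebraMap k[X] W u + algebraMap k[X] W v * y) -
              algebraMap k[X] W v * (y - algebraMap k[X] W b) := by
            rw [map_add, map_mul]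
            ring
          rw [e]
          exact P.sub_mem hw (P.mul_mem_left _ hb)
        obtain ⟨c, hc⟩ := hcomap _ h4
        have e : algebraMap k[X] W u + algebraMap k[X] W v * y =
            algebraMap k[X] W c * algebraMap k[X] W p +
              algebraMap k[X] W v * (y - algebraMap k[X] W b) := by
          rw [← map_mul, mul_comm c p, ← hc, map_add, map_mul]
          ring
        rw [e]
        exact Ideal.add_mem _ (Ideal.mul_mem_left _ _ (Ideal.subset_span (by simp)))
          (Ideal.mul_mem_left _ _ (Ideal.subset_span (by simp)))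
      · rw [Ideal.span_le]
        rintro w hw
        simp only [Set.mem_insert_iff, Set.mem_singleton_iff] at hw
        rcases hw with rfl | rfl
        · exact hpP
        · exact hb
    rw [h3]
    refine sq_form h2 hsf hd hq H _ p b rfl hp.ne_zero (hcomap _ ?_)
    have e : algebraMap k[X] W (b ^ 2 - q) =
        -((y - algebraMap k[X] W b) * (y + algebraMap k[X] W b)) := by
      rw [map_sub, map_pow, ← H.sq]
      ring
    rw [e]
    exact P.neg_mem (P.mul_mem_right _ hb)
  · have h3 : P = Ideal.span {algebraMap k[X] W p} := by
      apply le_antisymm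
      · intro w hw
        obtain ⟨u, v, rfl⟩ := H.rep w
        by_cases hv : p ∣ v
        · have h4 : algebraMap k[X] W u ∈ P := by
            have e : algebraMap k[X] W u = (algebraMap k[X] W u + algebraMap k[X] W v * y) -
                algebraMap k[X] W v * y := by ring
            rw [e]
            obtain ⟨c, rfl⟩ := hv
            rw [map_mul] at hw ⊢
            exact P.sub_mem hw (P.mul_mem_right _ (P.mul_mem_right _ hpP))
          obtain ⟨c, rfl⟩ := hv
          obtain ⟨e, rfl⟩ := hcomap _ h4
          rw [Ideal.mem_span_singleton]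
          exact ⟨algebraMap k[X] W e + algebraMap k[X] W c * y, by
            rw [map_mul, map_mul]
            ring⟩
        · exfalso
          obtain ⟨α, β, hαβ⟩ : IsCoprime p v := (hp.irreducible.coprime_iff_not_dvd).2 hv
          refine hb ⟨-(β * u), ?_⟩
          have e : y - algebraMap k[X] W (-(β * u)) =
              algebraMap k[X] W β * (algebraMap k[X] W u + algebraMap k[X] W v * y) +
                algebraMap k[X] W α * algebraMap k[X] W p * y := by
            have e8 := congrArg (algebraMap k[X] W) hαβ
            rw [map_add, map_mul, map_mul, map_one] at e8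
            rw [map_neg, map_mul]
            linear_combination (-y) * e8
          rw [e]
          exact P.add_mem (P.mul_mem_left _ hw) (P.mul_mem_right _ (P.mul_mem_left _ hpP))
      · rw [Ideal.span_singleton_le_iff_mem]
        exact hpP
    exact ⟨(algebraMap k[X] W p) ^ 2, by rw [h3, Ideal.span_singleton_pow]⟩

end Pool.Agent.Lib.MP_1a0ddd_nt.Gn
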