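import Mathlib

/-! `K[x, y]/(y² - F(x))` over any field `K` with `2 ≠ 0`, `F` squarefree and not a square. -/

set_option autoImplicit false

namespace Pool.Agent.Lib.MP_1a0ddd_nt.Gn

open Polynomial

variable {K : Type} [Field K]

/-- abstract form of the ring `K[x, y]/(y² - F)` -/
structure QHyp (F : K[X]) (A : Type) [CommRing A] [Algebra K[X] A] (y : A) : Prop where
  sq : y ^ 2 = algebraMap K[X] A F
  rep : ∀ a : A, ∃ u v : K[X], a = algebraMap _ A u + algebraMap _ A v * y
  uniq : ∀ u v : K[X], algebraMap _ A u + algebraMap _ A v * y = 0 → u = 0 ∧ v = 0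

/-- the norm form of `F` is anisotropic, that is, `F` is not a square in `K(x)` -/
def Aniso (F : K[X]) : Prop := ∀ u v : K[X], u ^ 2 = v ^ 2 * F → u = 0 ∧ v = 0


/-- every nonzero element divides a nonzero element of `L(t)[x]` -/
theorem q_exists_norm {F : K[X]} (h : Aniso F) {A : Type} [CommRing A]
    [Algebra K[X] A] {y : A} (H : QHyp F A y) (a : A) (ha : a ≠ 0) :
    ∃ n : K[X], n ≠ 0 ∧ a ∣ algebraMap _ A n := by
  obtain ⟨u, v, huv⟩ := H.rep a
  refine ⟨u ^ 2 - v ^ 2 * F, fun hn => ha ?_, algebraMap _ A u - algebraMap _ A v * y, ?_⟩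
  · obtain ⟨hu, hv⟩ := h u v (sub_eq_zero.mp hn)
    rw [huv, hu, hv, map_zero, zero_mul, add_zero]
  · rw [huv, map_sub, map_mul, map_pow, map_pow, ← H.sq]
    ring

private theorem ded_inj {F : K[X]} {A : Type} [CommRing A]
    [Algebra K[X] A] {y : A} (H : QHyp F A y) :
    Function.Injective (algebraMap K[X] A) := by
  rw [injective_iff_map_eq_zero]
  intro u hu
  exact (H.uniq u 0 (by rw [hu, map_zero, zero_mul, add_zero])).1

private theorem ded_finite {F : K[X]} {A : Type} [CommRing A]
    [Algebra K[X] A] {y : A} (H : QHyp F A y) : Module.Finite K[X] A := by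
  classical
  refine ⟨⟨{1, y}, ?_⟩⟩
  rw [eq_top_iff]
  rintro a -
  obtain ⟨u, v, huv⟩ := H.rep a
  rw [Finset.coe_insert, Finset.coe_singleton]
  refine Submodule.mem_span_pair.mpr ⟨u, v, ?_⟩
  rw [huv, Algebra.smul_def, Algebra.smul_def, mul_one]

/-- arithmetic in `L(t)[x]`: from trace and norm to the coefficients -/
private theorem ded_dvd (h2' : (2 : K) ≠ 0) {F : K[X]} (hsf : Squarefree F) {c u v α β : K[X]}
    (hc : c ≠ 0) (h1 : -(2 * u * c) = α * c ^ 2) (h0 : u ^ 2 - v ^ 2 * F = β * c ^ 2) :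
    c ∣ u ∧ c ∣ v := by
  have hu : c ∣ u := by
    have h2 : c ∣ 2 * u := by
      refine ⟨-α, ?_⟩
      apply mul_left_cancel₀ hc
      linear_combination (-1 : K[X]) * h1
    have hunit : IsUnit (2 : K[X]) := by
      have h3 : (2 : K[X]) = C 2 := (map_ofNat C 2).symm
      rw [h3, isUnit_C]
      exact h2'.isUnit
    exact (hunit.dvd_mul_left).mp h2
  refine ⟨hu, ?_⟩
  have hv : c ^ 2 ∣ v ^ 2 * F := by
    obtain ⟨w, hw⟩ := hu
    refine ⟨w ^ 2 - β, ?_⟩
    have h3 : v ^ 2 * F = u ^ 2 - β * c ^ 2 := by rw [← h0]; ring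
    rw [h3, hw]
    ring
  obtain ⟨c', v', d, hrel, hcd, hvd⟩ := UniqueFactorizationMonoid.exists_reduced_factors c hc v
  have hd : d ≠ 0 := by
    rintro rfl
    exact hc (by rw [← hcd, zero_mul])
  have h4 : c' ^ 2 ∣ v' ^ 2 * F := by
    have h5 : d ^ 2 * c' ^ 2 ∣ d ^ 2 * (v' ^ 2 * F) := by
      rw [← hcd, ← hvd] at hv
      have e1 : (d * c') ^ 2 = d ^ 2 * c' ^ 2 := by ring
      have e2 : (d * v') ^ 2 * F = d ^ 2 * (v' ^ 2 * F) := by ring
      rwa [e1, e2] at hv
    exact (mul_dvd_mul_iff_left (pow_ne_zero 2 hd)).mp h5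
  have h6 : c' ^ 2 ∣ F := (hrel.pow).dvd_of_dvd_mul_left h4
  have h7 : IsUnit c' := hsf c' (by rwa [← sq])
  rw [← hcd, ← hvd]
  exact mul_dvd_mul_left d h7.dvd

private theorem ded_coeff {R : Type} [CommRing R] (p s r : R) :
    (C p * X ^ 2 - C s * X + C r).coeff 2 = p ∧ (C p * X ^ 2 - C s * X + C r).coeff 1 = -s ∧
      (C p * X ^ 2 - C s * X + C r).coeff 0 = r ∧
        (C p * X ^ 2 - C s * X + C r).natDegree ≤ 2 := by
  refine ⟨?_, ?_, ?_, ?_⟩
  · simp
  · simp [coeff_C, coeff_X_pow]
  · simp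
  · compute_degree

private theorem ded_quad {c u v : K[X]} {F : K[X]} {Q : Type} [Field Q]
    [Algebra K[X] Q] {z η : Q}
    (hη : η ^ 2 = algebraMap K[X] Q (F))
    (hz : z * algebraMap K[X] Q c =
      algebraMap K[X] Q u + algebraMap K[X] Q v * η) :
    aeval z (C (c ^ 2) * X ^ 2 - C (2 * u * c) * X + C (u ^ 2 - v ^ 2 * F)) = 0 := by
  simp only [map_add, map_sub, map_mul, aeval_C, aeval_X, map_pow, ← hη, map_ofNat]
  have e : (z * algebraMap K[X] Q c - algebraMap K[X] Q u) ^ 2 =
      (algebraMap K[X] Q v * η) ^ 2 := by rw [hz]; ring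
  linear_combination e

/-- proof: `A = K[x] + K[x] y` is finite over the principal ideal domain `K[x]`; if
`(u + v y)/c` is integral over `K[x]` then so are its trace `2 u / c` and its norm, hence
`c ∣ u`, `c² ∣ v² F` and `c ∣ v` because `F` is squarefree -/
theorem q_isDedekind (h2' : (2 : K) ≠ 0) {F : K[X]} (hsf : Squarefree F) (h : Aniso F)
    {A : Type} [CommRing A] [IsDomain A]
    [Algebra K[X] A] {y : A} (H : QHyp F A y) : IsDedekindDomain A := by
  have hinj := ded_inj H
  have := ded_finite H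
  have : Algebra.IsIntegral K[X] A := Algebra.IsIntegral.of_finite _ _
  have hinj2 : Function.Injective (algebraMap K[X] (FractionRing A)) := by
    rw [IsScalarTower.algebraMap_eq K[X] A (FractionRing A)]
    exact (IsFractionRing.injective A (FractionRing A)).comp hinj
  have : FaithfulSMul K[X] (FractionRing A) :=
    (faithfulSMul_iff_algebraMap_injective _ _).mpr hinj2
  rw [isDedekindDomain_iff A (FractionRing A)]
  refine ⟨inferInstance, isNoetherian_of_tower K[X] inferInstance,
    ⟨fun {P} hP hPp => ?_⟩, fun {z} hz => ?_⟩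
  · obtain ⟨a, haP, ha⟩ := Submodule.exists_mem_ne_zero_of_ne_bot hP
    obtain ⟨n, hn, hdvd⟩ := q_exists_norm h H a ha
    have := hPp
    have hne : P.comap (algebraMap K[X] A) ≠ ⊥ := by
      intro e
      have hmem : n ∈ P.comap (algebraMap K[X] A) := P.mem_of_dvd hdvd haP
      rw [e] at hmem
      exact hn hmem
    have hmax : (P.comap (algebraMap K[X] A)).IsMaximal :=
      Ring.DimensionLEOne.maximalOfPrime hne inferInstance
    exact Ideal.isMaximal_of_isIntegral_of_isMaximal_comap P hmax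
  · have hzR : IsIntegral K[X] z := isIntegral_trans z hz
    obtain ⟨a, b, hb, rfl⟩ := IsFractionRing.div_surjective (A := A) z
    have hb0 : b ≠ 0 := nonZeroDivisors.ne_zero hb
    obtain ⟨c, hc, b', hb'⟩ := q_exists_norm h H b hb0
    obtain ⟨u, v, huv⟩ := H.rep (a * b')
    have hψb : algebraMap A (FractionRing A) b ≠ 0 := by
      rw [Ne, IsFractionRing.to_map_eq_zero_iff]
      exact hb0
    have hφ : ∀ r : K[X], algebraMap K[X] (FractionRing A) r =
        algebraMap A (FractionRing A) (algebraMap K[X] A r) := fun r =>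
      IsScalarTower.algebraMap_apply _ _ _ r
    have hzc : algebraMap A (FractionRing A) a / algebraMap A (FractionRing A) b *
        algebraMap K[X] (FractionRing A) c =
        algebraMap K[X] (FractionRing A) u +
          algebraMap K[X] (FractionRing A) v * algebraMap A (FractionRing A) y := by
      rw [hφ c, hφ u, hφ v, ← map_mul, ← map_add, ← huv, hb', map_mul, map_mul]
      field_simp
    have hη : (algebraMap A (FractionRing A) y) ^ 2 =
        algebraMap K[X] (FractionRing A) (F) := by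
      rw [hφ, ← H.sq, map_pow]
    set z := algebraMap A (FractionRing A) a / algebraMap A (FractionRing A) b with hzdef
    have hq := ded_quad hη hzc
    have hdvd := minpoly.isIntegrallyClosed_dvd hzR hq
    set q : K[X][X] :=
      C (c ^ 2) * X ^ 2 - C (2 * u * c) * X + C (u ^ 2 - v ^ 2 * F) with hqdef
    obtain ⟨hq2, hq1, hq0, hqdeg⟩ : q.coeff 2 = c ^ 2 ∧ q.coeff 1 = -(2 * u * c) ∧
        q.coeff 0 = u ^ 2 - v ^ 2 * F ∧ q.natDegree ≤ 2 := ded_coeff _ _ _
    have hqne : q ≠ 0 := by
      intro e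
      rw [e, coeff_zero] at hq2
      exact pow_ne_zero 2 hc hq2.symm
    have hmon := minpoly.monic hzR
    have hpos := minpoly.natDegree_pos hzR
    have haev := minpoly.aeval K[X] z
    set μ := minpoly K[X] z with hμ
    have hle : μ.natDegree ≤ 2 := (natDegree_le_of_dvd hdvd hqne).trans hqdeg
    rcases Nat.lt_or_ge μ.natDegree 2 with hlt | hge
    · have h1 : μ.natDegree = 1 := by omega
      have hX := hmon.eq_X_add_C h1
      rw [hX, map_add, aeval_X, aeval_C, hφ] at haev
      refine ⟨-algebraMap K[X] A (μ.coeff 0), ?_⟩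
      rw [map_neg]
      exact (eq_neg_of_add_eq_zero_left haev).symm
    · have h2 : μ.natDegree = 2 := le_antisymm hle hge
      obtain ⟨t, ht⟩ := hdvd
      have ht0 : t ≠ 0 := by
        rintro rfl
        exact hqne (by rw [ht, mul_zero])
      have htd : t.natDegree = 0 := by
        have h3 : q.natDegree = μ.natDegree + t.natDegree := by
          rw [ht]
          exact hmon.natDegree_mul' ht0
        omega
      have htC : t = C (t.coeff 0) := eq_C_of_natDegree_eq_zero htd
      have hcoef : ∀ i, q.coeff i = μ.coeff i * t.coeff 0 := by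
        intro i
        rw [ht]
        conv_lhs => rw [htC]
        rw [coeff_mul_C]
      have ht2 : t.coeff 0 = c ^ 2 := by
        have h4 := hcoef 2
        have h5 : μ.coeff 2 = 1 := by
          have h6 := hmon.coeff_natDegree
          rwa [h2] at h6
        rw [hq2, h5, one_mul] at h4
        exact h4.symm
      have e1 := hcoef 1
      have e0 := hcoef 0
      rw [hq1, ht2] at e1
      rw [hq0, ht2] at e0
      obtain ⟨⟨u', hu'⟩, ⟨v', hv'⟩⟩ := ded_dvd h2' hsf hc e1 e0
      refine ⟨algebraMap _ A u' + algebraMap _ A v' * y, ?_⟩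
      have hφc : algebraMap K[X] (FractionRing A) c ≠ 0 := by
        intro e
        exact hc (hinj2 (by rw [e, map_zero]))
      apply mul_right_cancel₀ hφc
      rw [hzc, hu', hv', map_mul, map_mul, map_add, map_mul, ← hφ, ← hφ]
      ring

end Pool.Agent.Lib.MP_1a0ddd_nt.Gn
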